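import Pool.Agent.N928.FG.Stm

set_option autoImplicit false

/-! Project FG (helper928), part UP: subcritical at `β = 1/2`. -/

namespace N654.FG

open Pool.Agent.N928.FG

theorem an_half (n : ℕ) : an (1 / 2) n = (s (1 / 2) n 0) ^ 6 := by
  unfold an
  have h : ∀ i : Fin 6, s (bet (1 / 2) i) n 0 = s (1 / 2) n 0 := by
    intro i
    have : bet (1 / 2) i = 1 / 2 := by
      unfold bet
      split_ifs <;> rfl
    rw [this]
  rw [Finset.prod_congr rfl (fun i _ => h i), Finset.prod_const, Finset.card_univ,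
    Fintype.card_fin]

theorem term_le (h1 : S_HALF) (h2 : S_S1) (n : ℕ) :
    (n : ℝ) * an (1 / 2) n ≤ 1 / 27 * (1 / (n : ℝ) ^ 2) := by
  rcases Nat.eq_zero_or_pos n with hn | hn
  · subst hn
    simp
  · have hn' : (0 : ℝ) < n := by exact_mod_cast hn
    have hs0 : 0 ≤ s (1 / 2) n 0 := (h2 (1 / 2) (by norm_num) le_rfl n 0).1
    have hs1 := h1 n
    have hp : (0 : ℝ) < 3 * n + 1 := by positivity
    have e1 : (s (1 / 2) n 0) ^ 6 ≤ (1 / Real.sqrt (3 * n + 1)) ^ 6 := pow_le_pow_left₀ hs0 hs1 6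
    have e2 : (1 / Real.sqrt (3 * n + 1)) ^ 6 = 1 / (3 * (n : ℝ) + 1) ^ 3 := by
      rw [div_pow, one_pow]
      congr 1
      calc Real.sqrt (3 * n + 1) ^ 6 = (Real.sqrt (3 * n + 1) ^ 2) ^ 3 := by ring
        _ = (3 * (n : ℝ) + 1) ^ 3 := by rw [Real.sq_sqrt hp.le]
    rw [an_half]
    have e3 : 1 / (3 * (n : ℝ) + 1) ^ 3 ≤ 1 / (3 * (n : ℝ)) ^ 3 := by
      apply one_div_le_one_div_of_le (by positivity)
      apply pow_le_pow_left₀ (by positivity)
      linarith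
    calc (n : ℝ) * s (1 / 2) n 0 ^ 6 ≤ n * (1 / (3 * (n : ℝ)) ^ 3) :=
          mul_le_mul_of_nonneg_left ((e1.trans_eq e2).trans e3) hn'.le
      _ = 1 / 27 * (1 / (n : ℝ) ^ 2) := by
          field_simp
          norm_num

theorem t_UP : S_HALF → S_S1 → S_UP := by
  intro h1 h2
  unfold S_UP
  have hz : HasSum (fun n : ℕ => 1 / 27 * (1 / (n : ℝ) ^ 2)) (1 / 27 * (Real.pi ^ 2 / 6)) :=
    hasSum_zeta_two.mul_left (1 / 27)
  have hnn : ∀ n : ℕ, 0 ≤ (n : ℝ) * an (1 / 2) n := by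
    intro n
    rw [an_half]
    have hs0 : 0 ≤ s (1 / 2) n 0 := (h2 (1 / 2) (by norm_num) le_rfl n 0).1
    positivity
  have hs : Summable (fun n : ℕ => (n : ℝ) * an (1 / 2) n) :=
    Summable.of_nonneg_of_le hnn (term_le h1 h2) hz.summable
  have h3 : ∑' n : ℕ, (n : ℝ) * an (1 / 2) n ≤ 1 / 27 * (Real.pi ^ 2 / 6) :=
    hasSum_le (term_le h1 h2) hs.hasSum hz
  have h4 : Real.pi ^ 2 ≤ 16 := by nlinarith [Real.pi_pos, Real.pi_le_four]
  linarith

end N654.FG
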